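import Pool.Agent.MWV.Stmts

/-!
# Row ORD of MWV (helper66): order of two lights
-/

set_option autoImplicit false

namespace Pool.Agent.MWV.H66

open Pool.Agent.Helper14_MV Pool.Agent.Helper2_MV Pool.Agent.MWV

theorem flat_filter (l : List ℕ) (p : ℕ → Bool) (g : ℕ → List ℕ)
    (h : ∀ e ∈ l, p e = false → g e = []) : l.flatMap g = (l.filter p).flatMap g := by
  induction l with
  | nil => rfl
  | cons a l ih =>
    have h1 := ih (fun e he => h e (List.mem_cons_of_mem _ he))
    rw [List.flatMap_cons, h1]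
    cases hp : p a with
    | true => rw [List.filter_cons_of_pos hp, List.flatMap_cons]
    | false =>
      rw [List.filter_cons_of_neg (by rw [hp]; exact Bool.false_ne_true),
        h a List.mem_cons_self hp, List.nil_append]

/-- the substitution -/
def sf (a b : ℕ) (sa sb s2 s5 : List ℕ) (x : ℕ) : List ℕ :=
  if x = 3 * a + 1 then [1] else if x = 3 * b + 1 then [4] else if x = 3 * a + 8 then sa
  else if x = 3 * b + 8 then sb else if x = 2 then s2 else if x = 5 then s5 else []

section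
variable {a b : ℕ} {sa sb s2 s5 : List ℕ}

theorem sf1 : sf a b sa sb s2 s5 (3 * a + 1) = [1] := if_pos rfl

theorem sf2 (h : a ≠ b) : sf a b sa sb s2 s5 (3 * b + 1) = [4] := by
  unfold sf
  rw [if_neg (by omega), if_pos rfl]

theorem sf3 : sf a b sa sb s2 s5 (3 * a + 8) = sa := by
  unfold sf
  rw [if_neg (by omega), if_neg (by omega), if_pos rfl]

theorem sf4 (h : a ≠ b) : sf a b sa sb s2 s5 (3 * b + 8) = sb := by
  unfold sf
  rw [if_neg (by omega), if_neg (by omega), if_neg (by omega), if_pos rfl]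

theorem sf5 : sf a b sa sb s2 s5 2 = s2 := by
  unfold sf
  rw [if_neg (by omega), if_neg (by omega), if_neg (by omega), if_neg (by omega), if_pos rfl]

theorem sf6 : sf a b sa sb s2 s5 5 = s5 := by
  unfold sf
  rw [if_neg (by omega), if_neg (by omega), if_neg (by omega), if_neg (by omega),
    if_neg (by omega), if_pos rfl]

theorem sf7 (c : ℕ) (h0 : c % 3 ≠ 2) (h1 : c ≠ 3 * a + 1) (h2 : c ≠ 3 * b + 1) :
    sf a b sa sb s2 s5 c = [] := by
  unfold sf
  rw [if_neg h1, if_neg h2, if_neg (by omega), if_neg (by omega), if_neg (by omega),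
    if_neg (by omega)]

theorem sf8 (e : ℕ) (h1 : e ≠ a) (h2 : e ≠ b) : sf a b sa sb s2 s5 (3 * e + 8) = [] := by
  unfold sf
  rw [if_neg (by omega), if_neg (by omega), if_neg (by omega), if_neg (by omega),
    if_neg (by omega), if_neg (by omega)]

end

theorem wf (f : ℕ → List ℕ) (I J L : List ℕ) : (W I J L).flatMap f =
    I.flatMap (fun e => f (3 * e + 8) ++ f (3 * e + 1)) ++ (f 2 ++ (L.flatMap f ++ (f 5 ++
      J.flatMap (fun e => f (3 * e + 1) ++ f (3 * e + 8))))) := by
  have h1 : ∀ I : List ℕ, (pl I).flatMap f =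
      I.flatMap (fun e => f (3 * e + 8) ++ f (3 * e + 1)) := by
    intro I
    unfold pl
    rw [List.flatMap_assoc]
    simp only [List.flatMap_cons, List.flatMap_nil, List.append_nil]
  have h2 : ∀ J : List ℕ, (pr J).flatMap f =
      J.flatMap (fun e => f (3 * e + 1) ++ f (3 * e + 8)) := by
    intro J
    unfold pr
    rw [List.flatMap_assoc]
    simp only [List.flatMap_cons, List.flatMap_nil, List.append_nil]
  unfold W
  rw [List.flatMap_append, List.flatMap_cons, List.flatMap_append, List.flatMap_cons, h1, h2]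

theorem core {N : ℕ} {S : List ℕ → List ℕ → Prop} (wo : Wo N S) {a b : ℕ} (hab : a ≠ b)
    {I J L L' fi fj : List ℕ} (sa sb s2 s5 : List ℕ)
    (hL : ∀ f : ℕ → List ℕ, (∀ c, c % 3 ≠ 2 → c ≠ 3 * a + 1 → c ≠ 3 * b + 1 → f c = []) →
      L.flatMap f = f (3 * a + 1) ++ f (3 * b + 1))
    (hL' : ∀ f : ℕ → List ℕ, (∀ c, c % 3 ≠ 2 → c ≠ 3 * a + 1 → c ≠ 3 * b + 1 → f c = []) →
      L'.flatMap f = f (3 * b + 1) ++ f (3 * a + 1))
    (hI : ∀ g : ℕ → List ℕ, (∀ e, e ≠ a → e ≠ b → g e = []) → I.flatMap g = fi.flatMap g)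
    (hJ : ∀ g : ℕ → List ℕ, (∀ e, e ≠ a → e ≠ b → g e = []) → J.flatMap g = fj.flatMap g)
    (hS : S (W I J L) (W I J L')) :
    S (fi.flatMap (fun e => sf a b sa sb s2 s5 (3 * e + 8) ++ sf a b sa sb s2 s5 (3 * e + 1)) ++
        (s2 ++ ([1, 4] ++ (s5 ++ fj.flatMap
          (fun e => sf a b sa sb s2 s5 (3 * e + 1) ++ sf a b sa sb s2 s5 (3 * e + 8))))))
      (fi.flatMap (fun e => sf a b sa sb s2 s5 (3 * e + 8) ++ sf a b sa sb s2 s5 (3 * e + 1)) ++
        (s2 ++ ([4, 1] ++ (s5 ++ fj.flatMap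
          (fun e => sf a b sa sb s2 s5 (3 * e + 1) ++ sf a b sa sb s2 s5 (3 * e + 8)))))) := by
  have h := wo.sub (sf a b sa sb s2 s5) (fun h hh c hc => by
    rw [sf7 h (by omega) (by omega) (by omega)] at hc
    exact absurd hc List.not_mem_nil) hS
  have v1 : ∀ e, e ≠ a → e ≠ b →
      sf a b sa sb s2 s5 (3 * e + 8) ++ sf a b sa sb s2 s5 (3 * e + 1) = [] := by
    intro e h1 h2
    rw [sf8 e h1 h2, sf7 _ (by omega) (by omega) (by omega)]
    rfl
  have v2 : ∀ e, e ≠ a → e ≠ b →
      sf a b sa sb s2 s5 (3 * e + 1) ++ sf a b sa sb s2 s5 (3 * e + 8) = [] := by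
    intro e h1 h2
    rw [sf8 e h1 h2, sf7 _ (by omega) (by omega) (by omega)]
    rfl
  rw [wf, wf, hL _ (fun c h0 h1 h2 => sf7 c h0 h1 h2), hL' _ (fun c h0 h1 h2 => sf7 c h0 h1 h2),
    hI _ v1, hJ _ v2, sf1, sf2 hab, sf5, sf6] at h
  exact h

/-- the filter of a list without repetitions to two elements -/
theorem filt {l : List ℕ} (hl : l.Nodup) {a b : ℕ} (hab : a ≠ b) :
    (a ∉ l → b ∉ l → l.filter (fun c => decide (c = a ∨ c = b)) = []) ∧
    (a ∈ l → b ∉ l → l.filter (fun c => decide (c = a ∨ c = b)) = [a]) ∧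
    (a ∉ l → b ∈ l → l.filter (fun c => decide (c = a ∨ c = b)) = [b]) ∧
    (a ∈ l → b ∈ l → l.filter (fun c => decide (c = a ∨ c = b)) = [a, b] ∨
      l.filter (fun c => decide (c = a ∨ c = b)) = [b, a]) := by
  have hn : (l.filter (fun c => decide (c = a ∨ c = b))).Nodup := hl.filter _
  have hm : ∀ x, x ∈ l.filter (fun c => decide (c = a ∨ c = b)) ↔ x ∈ l ∧ (x = a ∨ x = b) := by
    intro x
    rw [List.mem_filter, decide_eq_true_eq]
  refine ⟨fun h1 h2 => ?_, fun h1 h2 => ?_, fun h1 h2 => ?_, fun h1 h2 => ?_⟩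
  · rw [List.filter_eq_nil_iff]
    intro x hx h
    rw [decide_eq_true_eq] at h
    rcases h with rfl | rfl
    · exact h1 hx
    · exact h2 hx
  · rw [← List.perm_singleton, List.perm_ext_iff_of_nodup hn (List.nodup_singleton a)]
    intro x
    rw [hm, List.mem_singleton]
    constructor
    · rintro ⟨hx, rfl | rfl⟩
      · rfl
      · exact absurd hx h2
    · rintro rfl
      exact ⟨h1, Or.inl rfl⟩
  · rw [← List.perm_singleton, List.perm_ext_iff_of_nodup hn (List.nodup_singleton b)]
    intro x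
    rw [hm, List.mem_singleton]
    constructor
    · rintro ⟨hx, rfl | rfl⟩
      · exact absurd hx h1
      · rfl
    · rintro rfl
      exact ⟨h2, Or.inr rfl⟩
  · have hp : (l.filter (fun c => decide (c = a ∨ c = b))).Perm [a, b] := by
      rw [List.perm_ext_iff_of_nodup hn (by simp [hab])]
      intro x
      rw [hm, List.mem_cons, List.mem_singleton]
      constructor
      · rintro ⟨_, h⟩
        exact h
      · rintro h
        refine ⟨?_, h⟩
        rcases h with rfl | rfl
        · exact h1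
        · exact h2
    obtain ⟨x, y, hxy⟩ := List.length_eq_two.1 hp.length_eq
    rw [hxy] at hp hn ⊢
    have hx : x = a ∨ x = b := by
      have := hp.subset (List.mem_cons_self (a := x) (l := [y]))
      rw [List.mem_cons, List.mem_singleton] at this
      exact this
    have hy : y = a ∨ y = b := by
      have := hp.subset (List.mem_cons_of_mem x (List.mem_singleton_self y))
      rw [List.mem_cons, List.mem_singleton] at this
      exact this
    have hne : x ≠ y := by
      intro h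
      rw [h] at hn
      simp at hn
    rcases hx with rfl | rfl
    · rcases hy with rfl | rfl
      · exact absurd rfl hne
      · exact Or.inl rfl
    · rcases hy with rfl | rfl
      · exact Or.inr rfl
      · exact absurd rfl hne

/-- the three exchanges -/
theorem trip {N : ℕ} {S : List ℕ → List ℕ → Prop} (wo : Wo N S) {a b : ℕ} (hab : a ≠ b)
    {I J L L' fi fj : List ℕ}
    (hL : ∀ f : ℕ → List ℕ, (∀ c, c % 3 ≠ 2 → c ≠ 3 * a + 1 → c ≠ 3 * b + 1 → f c = []) →
      L.flatMap f = f (3 * a + 1) ++ f (3 * b + 1))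
    (hL' : ∀ f : ℕ → List ℕ, (∀ c, c % 3 ≠ 2 → c ≠ 3 * a + 1 → c ≠ 3 * b + 1 → f c = []) →
      L'.flatMap f = f (3 * b + 1) ++ f (3 * a + 1))
    (hI : ∀ g : ℕ → List ℕ, (∀ e, e ≠ a → e ≠ b → g e = []) → I.flatMap g = fi.flatMap g)
    (hJ : ∀ g : ℕ → List ℕ, (∀ e, e ≠ a → e ≠ b → g e = []) → J.flatMap g = fj.flatMap g)
    (hS : S (W I J L) (W I J L')) :
    (fi = [] → fj = [a, b] → SA S) ∧ (fi = [a, b] → fj = [] → SB S) ∧
      (fi = [a] → fj = [b] → SM S) := by
  refine ⟨fun h1 h2 => ?_, fun h1 h2 => ?_, fun h1 h2 => ?_⟩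
  · have h := core wo hab [5] [] [] [2] hL hL' hI hJ hS
    rw [h1, h2] at h
    simp only [List.flatMap_cons, List.flatMap_nil, sf1, sf2 hab, sf3, sf4 hab,
      List.append_nil, List.nil_append, List.cons_append] at h
    exact h
  · have h := core wo hab [] [2] [5] [] hL hL' hI hJ hS
    rw [h1, h2] at h
    simp only [List.flatMap_cons, List.flatMap_nil, sf1, sf2 hab, sf3, sf4 hab,
      List.append_nil, List.nil_append, List.cons_append] at h
    exact h
  · have h := core wo hab [] [] [2] [5] hL hL' hI hJ hS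
    rw [h1, h2] at h
    simp only [List.flatMap_cons, List.flatMap_nil, sf1, sf2 hab, sf3, sf4 hab,
      List.append_nil, List.nil_append, List.cons_append] at h
    exact h

theorem W_inj {I J L L' : List ℕ} (h : W I J L = W I J L') : L = L' := by
  unfold W at h
  have h1 := List.append_cancel_left h
  rw [List.cons.injEq] at h1
  exact List.append_cancel_right h1.2

/-- **ORD** -/
theorem ord (_ : SbwStmt) (hPM : PpmStmt) (hLB : LbkStmt) (hDC : DcbStmt) : OrdStmt := by
  intro N S P Q g k d i j m1 m2 hy hd hij hj hk hS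
  by_contra hni
  obtain ⟨L1, hV, hOk, -⟩ := hDC N S P Q g k d _ hy hd hS
  rw [← W_inj hV] at hOk
  obtain ⟨hOb, -, hfil, -⟩ := hLB N g k d P Q hy.wo.pos hy.kp hd hy.pm
  obtain ⟨hpp, -, hp0, hpk⟩ := hPM k P Q hy.kp hy.pm
  have hnd : (PP k P ++ PP k Q).Nodup := hpp.nodup_iff.2 List.nodup_range
  obtain ⟨hnI, hnJ, hdis⟩ := List.nodup_append.1 hnd
  have hi' : i ∈ PP k P ++ PP k Q := hpp.mem_iff.2 (List.mem_range.2 (by omega))
  have hj' : j ∈ PP k P ++ PP k Q := hpp.mem_iff.2 (List.mem_range.2 (by omega))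
  have hne : i ≠ j := by omega
  have hne' : j ≠ i := by omega
  -- the main blocks
  have sep : ∀ {L : List ℕ}, Ok (PP k P) (PP k Q) L → ∀ c ∈ L, c % 3 ≠ 2 := by
    intro L hL c hc
    rcases hL.mem c hc with h | ⟨e, _, h⟩ <;> omega
  have hL : ∀ f : ℕ → List ℕ, (∀ c, c % 3 ≠ 2 → c ≠ 3 * i + 1 → c ≠ 3 * j + 1 → f c = []) →
      (Lb N g k d).flatMap f = f (3 * i + 1) ++ f (3 * j + 1) := by
    intro f hf
    rw [flat_filter (Lb N g k d) (fun c => decide (c = 3 * i + 1 ∨ c = 3 * j + 1)) f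
      (fun e he hp => by
        rw [decide_eq_false_iff_not, not_or] at hp
        exact hf e (sep hOb e he) hp.1 hp.2), hfil i j hij hj]
    simp only [List.flatMap_cons, List.flatMap_nil, List.append_nil]
  have hci := hOk.one i hi'
  have hcj := hOk.one j hj'
  rw [List.count_append, List.count_cons_of_ne (by omega), List.count_eq_zero.2 hni,
    Nat.zero_add] at hci
  rw [List.count_append, List.count_cons_self] at hcj
  have hj1 : 3 * j + 1 ∉ m1 := fun h => by
    have := List.count_pos_iff.2 h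
    omega
  have hj2 : 3 * j + 1 ∉ m2 := fun h => by
    have := List.count_pos_iff.2 h
    omega
  have hL' : ∀ f : ℕ → List ℕ, (∀ c, c % 3 ≠ 2 → c ≠ 3 * i + 1 → c ≠ 3 * j + 1 → f c = []) →
      (m1 ++ (3 * j + 1) :: m2).flatMap f = f (3 * j + 1) ++ f (3 * i + 1) := by
    intro f hf
    have e1 : m1.flatMap f = [] := by
      rw [List.flatMap_eq_nil_iff]
      intro c hc
      refine hf c (sep hOk c (List.mem_append_left _ hc)) ?_ ?_
      · rintro rfl
        exact hni hc
      · rintro rfl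
        exact hj1 hc
    have e2 : m2.flatMap f = f (3 * i + 1) := by
      rw [flat_filter m2 (fun c => decide (c = 3 * i + 1)) f (fun e he hp => by
        rw [decide_eq_false_iff_not] at hp
        refine hf e (sep hOk e (List.mem_append_right _ (List.mem_cons_of_mem _ he))) hp ?_
        rintro rfl
        exact hj2 he)]
      have e3 : m2.filter (fun c => decide (c = 3 * i + 1)) = [3 * i + 1] := by
        have e4 := List.filter_eq (l := m2) (3 * i + 1)
        rw [hci] at e4
        exact e4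
      rw [e3]
      simp only [List.flatMap_cons, List.flatMap_nil, List.append_nil]
    rw [List.flatMap_append, List.flatMap_cons, e1, e2, List.nil_append]
  have hgen : ∀ (l : List ℕ) (g : ℕ → List ℕ), (∀ e, e ≠ i → e ≠ j → g e = []) →
      l.flatMap g = (l.filter (fun c => decide (c = i ∨ c = j))).flatMap g := by
    intro l g hg
    refine flat_filter l _ g (fun e _ hp => ?_)
    rw [decide_eq_false_iff_not, not_or] at hp
    exact hg e hp.1 hp.2
  have t1 := trip hy.wo hne hL hL' (hgen (PP k P)) (hgen (PP k Q)) hS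
  have t2 := trip hy.wo hne' (fun f hf => hL' f fun c h0 h1 h2 => hf c h0 h2 h1)
    (fun f hf => hL f fun c h0 h1 h2 => hf c h0 h2 h1)
    (fun g hg => hgen (PP k P) g fun e h1 h2 => hg e h2 h1)
    (fun g hg => hgen (PP k Q) g fun e h1 h2 => hg e h2 h1) (hy.wo.symm hS)
  obtain ⟨a1, a2, a3, a4⟩ := filt hnI hne
  obtain ⟨b1, b2, b3, b4⟩ := filt hnJ hne
  have hfc := hy.fc
  rcases List.mem_append.1 hi' with hiP | hiQ
  · have hiQ : i ∉ PP k Q := fun h => hdis i hiP i h rfl
    rcases List.mem_append.1 hj' with hjP | hjQ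
    · have hjQ : j ∉ PP k Q := fun h => hdis j hjP j h rfl
      have hSB : SB S := by
        rcases a4 hiP hjP with h | h
        · exact t1.2.1 h (b1 hiQ hjQ)
        · exact t2.2.1 h (b1 hiQ hjQ)
      refine hfc.nb ?_ hSB
      rcases hk ⟨fun h => absurd h hiQ, fun h => absurd h hjQ⟩ with h | h
      · exact Or.inl fun h0 => hiQ (h.2 (hp0.2 h0))
      · exact Or.inr fun h0 => hiQ (h.2 (hpk.2 h0))
    · have hjP : j ∉ PP k P := fun h => hdis j h j hjQ rfl
      exact hfc.nm (t1.2.2 (a2 hiP hjP) (b3 hiQ hjQ))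
  · have hiP : i ∉ PP k P := fun h => hdis i h i hiQ rfl
    rcases List.mem_append.1 hj' with hjP | hjQ
    · have hjQ : j ∉ PP k Q := fun h => hdis j hjP j h rfl
      exact hfc.nm (t2.2.2 (a3 hiP hjP) (b2 hiQ hjQ))
    · have hjP : j ∉ PP k P := fun h => hdis j h j hjQ rfl
      have hSA : SA S := by
        rcases b4 hiQ hjQ with h | h
        · exact t1.1 (a1 hiP hjP) h
        · exact t2.1 (a1 hiP hjP) h
      refine hfc.na ?_ hSA
      rcases hk ⟨fun _ => hjQ, fun _ => hiQ⟩ with h | h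
      · exact Or.inl (hp0.1 (h.1 hiQ))
      · exact Or.inr (hpk.1 (h.1 hiQ))

end Pool.Agent.MWV.H66
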